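import Pool.Agent.H487.MI.Stm0
import Pool.Graph.R_seed8.H370R2.Local

set_option autoImplicit false

open Metric

namespace Pool.Agent.H354.MI

open Pool.Agent.H487.MI

theorem ld : S_LD := by
  intro ε' hε'
  refine ⟨ε' / (2 * 64 * 6144 ^ 2), max 16 (2 * 64 * 6144 / ε'), by positivity,
    le_max_left _ _, ?_⟩
  intro f hf t L R x hL hx hR1 hR2 hGS s hs1 hs2
  have hx16 : (16 : ℝ) ≤ x := (le_max_left _ _).trans hx
  have hx2 : 2 * 64 * 6144 / ε' ≤ x := (le_max_right _ _).trans hx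
  have hx0 : 0 < x := by linarith
  have hR0 : 0 < R := by linarith
  have hLc : ((L : ℝ) : ℂ) ≠ 0 := by exact_mod_cast hL.ne'
  set ε : ℝ := ε' / (2 * 64 * 6144 ^ 2) with hε
  have hε0 : 0 < ε := by positivity
  obtain ⟨h1, h2⟩ := hGS
  set c : ℂ := ((R / 2 : ℝ) : ℂ) with hc
  have hmem : ∀ z : ℂ, z ∈ closedBall c (R / 2 - x / 4) → x / 4 ≤ z.re ∧ ‖z‖ ≤ R - 4 := by
    intro z hz
    rw [mem_closedBall, dist_eq_norm] at hz
    constructor
    · have h3 : |(z - c).re| ≤ R / 2 - x / 4 := (Complex.abs_re_le_norm _).trans hz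
      rw [Complex.sub_re, hc, Complex.ofReal_re] at h3
      have := (abs_le.mp h3).1
      linarith
    · have h3 : ‖z‖ ≤ ‖z - c‖ + ‖c‖ := by
        have := norm_add_le (z - c) c
        rwa [sub_add_cancel] at this
      have h4 : ‖c‖ = R / 2 := by
        rw [hc, Complex.norm_real, Real.norm_eq_abs, abs_of_nonneg (by linarith)]
      rw [h4] at h3
      linarith
  set h : ℂ → ℂ := fun z => 1 / 2 + (t : ℂ) * Complex.I + z / ((L : ℝ) : ℂ) with hh
  have hhd : ∀ z, HasDerivAt h (1 / ((L : ℝ) : ℂ)) z := by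
    intro z
    have := ((hasDerivAt_id z).div_const ((L : ℝ) : ℂ)).const_add
      (1 / 2 + (t : ℂ) * Complex.I)
    exact this
  set g : ℂ → ℂ := f ∘ h with hg
  have hgd : Differentiable ℂ g := hf.comp fun z => (hhd z).differentiableAt
  have hgan : AnalyticOnNhd ℂ g (closedBall c (R / 2 - x / 4)) := fun z _ => hgd.analyticAt z
  have hg0 : ∀ z ∈ closedBall c (R / 2 - x / 4), g z ≠ 0 := by
    intro z hz
    obtain ⟨h3, h4⟩ := hmem z hz
    exact h1 z (by linarith) h4
  have hgc : g c = f (1 / 2 + (t : ℂ) * Complex.I + ((R / 2 / L : ℝ) : ℂ)) := by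
    simp only [hg, hh, hc, Function.comp_apply]
    congr 1
    push_cast
    ring
  have hgb : ∀ z ∈ closedBall c (R / 2 - x / 4), ‖g z‖ ≤ Real.exp (ε * R) * ‖g c‖ := by
    intro z hz
    obtain ⟨h3, h4⟩ := hmem z hz
    rw [hgc]
    exact h2 z (by linarith) h4
  -- the point
  set zs : ℂ := ((L : ℝ) : ℂ) * (s - 1 / 2 - (t : ℂ) * Complex.I) with hzs
  have hzs1 : zs.re = x := by
    have e1 : (s - 1 / 2 - (t : ℂ) * Complex.I).re = x / L := by
      simp [hs1]
    rw [hzs, Complex.re_ofReal_mul, e1]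
    field_simp
  have hzs2 : |zs.im| ≤ 33 * x := by
    have e1 : (s - 1 / 2 - (t : ℂ) * Complex.I).im = s.im - t := by
      simp
    rw [hzs, Complex.im_ofReal_mul, e1, abs_mul, abs_of_pos hL]
    calc L * |s.im - t| ≤ L * (33 * x / L) := mul_le_mul_of_nonneg_left hs2 hL.le
      _ = 33 * x := by field_simp
  have hhs : h zs = s := by
    simp only [hh, hzs]
    field_simp
    ring
  have hzsm : zs ∈ closedBall c (R / 2 - x / 2) := by
    rw [mem_closedBall, dist_eq_norm]
    have e1 : ‖zs - c‖ ^ 2 = (x - R / 2) ^ 2 + zs.im ^ 2 := by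
      rw [Complex.sq_norm, Complex.normSq_apply, Complex.sub_re, Complex.sub_im, hzs1, hc,
        Complex.ofReal_re, Complex.ofReal_im]
      ring
    have e2 : zs.im ^ 2 ≤ (33 * x) ^ 2 := by
      rw [← sq_abs zs.im]
      exact pow_le_pow_left₀ (abs_nonneg _) hzs2 2
    have e3 : 4096 * x * x ≤ R * x := mul_le_mul_of_nonneg_right hR1 hx0.le
    have e4 : ‖zs - c‖ ^ 2 ≤ (R / 2 - x / 2) ^ 2 := by
      rw [e1]
      nlinarith
    exact (pow_le_pow_iff_left₀ (norm_nonneg _) (by linarith) two_ne_zero).mp e4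
  have hbd := H370.Loc.logDeriv_zero_free (g := g) (c := c) (r := R / 2 - x / 4)
    (r1 := R / 2 - 3 * x / 8) (r2 := R / 2 - x / 2) (B := ε * R) (by linarith) (by linarith)
    (by linarith) (by positivity) hgan hg0 hgb hzsm
  have hfs : f s ≠ 0 := by
    have := hg0 zs (closedBall_subset_closedBall (by linarith) hzsm)
    rwa [hg, Function.comp_apply, hhs] at this
  refine ⟨hfs, ?_⟩
  have hld : logDeriv g zs = logDeriv f s * (1 / ((L : ℝ) : ℂ)) := by
    rw [hg, logDeriv_comp (hf _) (hhd zs).differentiableAt, (hhd zs).deriv, hhs]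
  have hbd2 : ‖logDeriv g zs‖ ≤ ε' := by
    refine hbd.trans ?_
    have e1 : R / 2 - x / 4 - (R / 2 - 3 * x / 8) = x / 8 := by ring
    have e2 : R / 2 - 3 * x / 8 - (R / 2 - x / 2) = x / 8 := by ring
    rw [e1, e2, div_div, div_le_iff₀ (by positivity)]
    have h5 : 2 * 64 * 6144 ≤ ε' * x := by
      rw [div_le_iff₀ hε'] at hx2
      linarith
    have h6 : ε * (2 * 64 * 6144 ^ 2) = ε' := by
      rw [hε]
      field_simp
    have h7 : (ε * R + 1) * (R / 2 - 3 * x / 8) ≤ (ε * (6144 * x) + 1) * (6144 * x / 2) := by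
      apply mul_le_mul
      · have := mul_le_mul_of_nonneg_left hR2 hε0.le
        linarith
      · linarith
      · linarith
      · positivity
    have h8 : (ε * (6144 * x) + 1) * (6144 * x / 2) =
        (ε * (2 * 64 * 6144 ^ 2)) * x ^ 2 / 256 + (2 * 64 * 6144) * x / 256 := by
      ring
    have h9 : (2 * 64 * 6144) * x ≤ ε' * x * x := mul_le_mul_of_nonneg_right h5 hx0.le
    rw [h6] at h8
    nlinarith
  have hfin : ‖logDeriv f s‖ = ‖logDeriv g zs‖ * L := by
    rw [hld, norm_mul, norm_div, norm_one, Complex.norm_real, Real.norm_eq_abs, abs_of_pos hL]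
    field_simp
  rw [hfin]
  exact mul_le_mul_of_nonneg_right hbd2 hL.le

end Pool.Agent.H354.MI
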