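import Pool.Agent.H487.MI.Stm0

set_option autoImplicit false

open Metric

namespace Pool.Agent.H354.MI

open Pool.Agent.H487.MI

/-- growth along a segment -/
theorem grow {f : ℂ → ℂ} (hf : Differentiable ℂ f) {a b : ℂ} {B : ℝ}
    (h : ∀ s : ℝ, 0 ≤ s → s ≤ 1 → f (a + (s : ℂ) * (b - a)) ≠ 0 ∧
      ‖logDeriv f (a + (s : ℂ) * (b - a))‖ ≤ B) :
    ‖f b‖ ≤ Real.exp (B * ‖b - a‖) * ‖f a‖ := by
  have hd : ∀ s : ℝ, HasDerivAt (fun s : ℝ => f (a + (s : ℂ) * (b - a)))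
      (deriv f (a + (s : ℂ) * (b - a)) * (b - a)) s := by
    intro s
    have h1 : HasDerivAt (fun s : ℝ => a + (s : ℂ) * (b - a)) (b - a) s := by
      have h2 : HasDerivAt (fun s : ℝ => (s : ℂ)) 1 s := Complex.ofRealCLM.hasDerivAt
      have h3 := (h2.mul_const (b - a)).const_add a
      rwa [one_mul] at h3
    have h4 : HasDerivAt f (deriv f (a + (s : ℂ) * (b - a))) (a + (s : ℂ) * (b - a)) :=
      (hf _).hasDerivAt
    exact HasDerivAt.comp s h4 h1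
  have hg := norm_le_gronwallBound_of_norm_deriv_right_le (f := fun s : ℝ => f (a + (s : ℂ) * (b - a)))
    (f' := fun s : ℝ => deriv f (a + (s : ℂ) * (b - a)) * (b - a)) (δ := ‖f a‖)
    (K := B * ‖b - a‖) (ε := 0) (a := 0) (b := 1)
    (fun s _ => (hd s).continuousAt.continuousWithinAt)
    (fun s _ => (hd s).hasDerivWithinAt) (by simp) (by
      intro s hs
      obtain ⟨h5, h6⟩ := h s hs.1 hs.2.le
      have e1 : deriv f (a + (s : ℂ) * (b - a)) =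
          logDeriv f (a + (s : ℂ) * (b - a)) * f (a + (s : ℂ) * (b - a)) := by
        rw [logDeriv_apply, div_mul_cancel₀ _ h5]
      rw [e1, norm_mul, norm_mul, add_zero]
      calc ‖logDeriv f (a + (s : ℂ) * (b - a))‖ * ‖f (a + (s : ℂ) * (b - a))‖ * ‖b - a‖
          = (‖logDeriv f (a + (s : ℂ) * (b - a))‖ * ‖b - a‖) * ‖f (a + (s : ℂ) * (b - a))‖ := by
            ring
        _ ≤ (B * ‖b - a‖) * ‖f (a + (s : ℂ) * (b - a))‖ := by
            apply mul_le_mul_of_nonneg_right _ (norm_nonneg _)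
            exact mul_le_mul_of_nonneg_right h6 (norm_nonneg _)) 1 ⟨zero_le_one, le_rfl⟩
  rw [gronwallBound_ε0] at hg
  have e2 : a + ((1 : ℝ) : ℂ) * (b - a) = b := by
    push_cast
    ring
  rw [e2, sub_zero, mul_one, mul_comm] at hg
  exact hg

/-- powers of `3/2` at every scale -/
theorem scale {κ Y : ℝ} (hκ : 0 < κ) (hY : κ ≤ Y) :
    ∃ i : ℕ, Y ≤ (3 / 2 : ℝ) ^ i * κ ∧ (3 / 2 : ℝ) ^ i * κ ≤ 3 / 2 * Y := by
  classical
  have hex : ∃ i : ℕ, Y ≤ (3 / 2 : ℝ) ^ i * κ := by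
    obtain ⟨n, hn⟩ := pow_unbounded_of_one_lt (Y / κ) (by norm_num : (1 : ℝ) < 3 / 2)
    refine ⟨n, ?_⟩
    rw [div_lt_iff₀ hκ] at hn
    exact hn.le
  refine ⟨Nat.find hex, Nat.find_spec hex, ?_⟩
  rcases Nat.eq_zero_or_pos (Nat.find hex) with h0 | h0
  · rw [h0, pow_zero, one_mul]
    linarith
  · obtain ⟨i, hi⟩ := Nat.exists_eq_succ_of_ne_zero h0.ne'
    have h1 := Nat.find_min hex (m := i) (by omega)
    rw [not_le] at h1
    rw [hi, pow_succ]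
    nlinarith

theorem ug (h : S_LD) : S_UG := by
  intro ε' hε'
  obtain ⟨εL, x₀, hεL, hx₀, hLD⟩ := h (ε' / 40) (by positivity)
  refine ⟨min εL (ε' / 40), x₀, lt_min hεL (by positivity), hx₀, ?_⟩
  intro f hf t L κ c₁ hL hc₁ hκ hGS x' hx' hx6 z hz hz5 w hw
  have hκ0 : 0 < κ := by linarith
  have hx16 : 16 ≤ x' := by linarith
  have hx0 : 0 < x' := by linarith
  have hz0 : 0 ≤ ‖z‖ := norm_nonneg z
  have hLc : ((L : ℝ) : ℂ) ≠ 0 := by exact_mod_cast hL.ne'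
  -- the big scale
  obtain ⟨i, hi1, hi2⟩ := scale (κ := κ) (Y := max (‖z‖ + 4) (8 * x')) hκ0
    (le_trans (by linarith) (le_max_right _ _))
  set Ri : ℝ := (3 / 2 : ℝ) ^ i * κ with hRi
  have hRz : ‖z‖ + 4 ≤ Ri := (le_max_left _ _).trans hi1
  have hRx : 8 * x' ≤ Ri := (le_max_right _ _).trans hi1
  have hRu : Ri ≤ 3 / 2 * ‖z‖ + 6 + 12 * x' := by
    refine hi2.trans ?_
    have : max (‖z‖ + 4) (8 * x') ≤ ‖z‖ + 4 + 8 * x' := by
      apply max_le <;> linarith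
    linarith
  have hRc : 6144 * (Ri / 2) ≤ c₁ * L := by
    nlinarith
  -- (1)
  have hone : ∀ y : ℝ, 4 * x' ≤ y → y ≤ Ri / 2 → ∀ v : ℝ, |v| ≤ 33 * y →
      f (1 / 2 + (t : ℂ) * Complex.I + ((y : ℂ) + (v : ℂ) * Complex.I) / ((L : ℝ) : ℂ)) ≠ 0 ∧
      ‖logDeriv f (1 / 2 + (t : ℂ) * Complex.I +
        ((y : ℂ) + (v : ℂ) * Complex.I) / ((L : ℝ) : ℂ))‖ ≤ ε' / 40 * L := by
    intro y hy1 hy2 v hv
    obtain ⟨j, hj1, hj2⟩ := scale (κ := κ) (Y := 4096 * y) hκ0 (by linarith)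
    have hjc : (3 / 2 : ℝ) ^ j * κ ≤ c₁ * L := by linarith
    obtain ⟨g1, g2⟩ := hGS j hjc
    have hj0 : 0 ≤ (3 / 2 : ℝ) ^ j * κ := by positivity
    have hG : GS f t L εL (1 / 30000) ((3 / 2 : ℝ) ^ j * κ) := by
      refine ⟨g1, fun z' hz' hz'2 => (g2 z' hz' hz'2).trans ?_⟩
      apply mul_le_mul_of_nonneg_right _ (norm_nonneg _)
      apply Real.exp_le_exp.mpr
      exact mul_le_mul_of_nonneg_right (min_le_left _ _) hj0
    refine hLD f hf t L ((3 / 2 : ℝ) ^ j * κ) y hL (by linarith) hj1 (by linarith) hG _ ?_ ?_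
    · simp [Complex.div_ofReal_re]
    · have e1 : (1 / 2 + (t : ℂ) * Complex.I +
          ((y : ℂ) + (v : ℂ) * Complex.I) / ((L : ℝ) : ℂ)).im - t = v / L := by
        simp [Complex.div_ofReal_im]
      rw [e1, abs_div, abs_of_pos hL]
      exact div_le_div_of_nonneg_right hv hL.le
  -- the end point
  have hw0 := hone (4 * x') le_rfl (by linarith) w (by linarith)
  have hcast : ((4 * x' : ℝ) : ℂ) = 4 * (x' : ℂ) := by push_cast; ring
  rw [hcast] at hw0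
  refine ⟨hw0.1, ?_⟩
  -- (2)
  obtain ⟨-, g2⟩ := hGS i (by linarith)
  have hstep2 := g2 z hz (by linarith)
  -- (3)
  have hA : ‖f (1 / 2 + (t : ℂ) * Complex.I + ((Ri / 2 : ℝ) : ℂ) / ((L : ℝ) : ℂ))‖ ≤
      Real.exp (ε' / 40 * (Ri / 2)) *
        ‖f (1 / 2 + (t : ℂ) * Complex.I + ((4 * x' : ℝ) : ℂ) / ((L : ℝ) : ℂ))‖ := by
    have h1 := grow hf (a := 1 / 2 + (t : ℂ) * Complex.I + ((4 * x' : ℝ) : ℂ) / ((L : ℝ) : ℂ))
      (b := 1 / 2 + (t : ℂ) * Complex.I + ((Ri / 2 : ℝ) : ℂ) / ((L : ℝ) : ℂ))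
      (B := ε' / 40 * L) (by
        intro s hs0 hs1
        have e1 : (1 / 2 + (t : ℂ) * Complex.I + ((4 * x' : ℝ) : ℂ) / ((L : ℝ) : ℂ)) +
            (s : ℂ) * ((1 / 2 + (t : ℂ) * Complex.I + ((Ri / 2 : ℝ) : ℂ) / ((L : ℝ) : ℂ)) -
              (1 / 2 + (t : ℂ) * Complex.I + ((4 * x' : ℝ) : ℂ) / ((L : ℝ) : ℂ))) =
            1 / 2 + (t : ℂ) * Complex.I +
              (((4 * x' + s * (Ri / 2 - 4 * x') : ℝ) : ℂ) + ((0 : ℝ) : ℂ) * Complex.I) /
                ((L : ℝ) : ℂ) := by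
          push_cast
          ring
        rw [e1]
        have h2 : 0 ≤ s * (Ri / 2 - 4 * x') := mul_nonneg hs0 (by linarith)
        have h3 : s * (Ri / 2 - 4 * x') ≤ 1 * (Ri / 2 - 4 * x') :=
          mul_le_mul_of_nonneg_right hs1 (by linarith)
        apply hone
        · linarith
        · linarith
        · rw [abs_zero]
          linarith)
    refine h1.trans (mul_le_mul_of_nonneg_right (Real.exp_le_exp.mpr ?_) (norm_nonneg _))
    have e2 : (1 / 2 + (t : ℂ) * Complex.I + ((Ri / 2 : ℝ) : ℂ) / ((L : ℝ) : ℂ)) -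
        (1 / 2 + (t : ℂ) * Complex.I + ((4 * x' : ℝ) : ℂ) / ((L : ℝ) : ℂ)) =
        (((Ri / 2 - 4 * x') / L : ℝ) : ℂ) := by
      push_cast
      ring
    rw [e2, Complex.norm_real, Real.norm_eq_abs, abs_of_nonneg (div_nonneg (by linarith) hL.le)]
    have e3 : ε' / 40 * L * ((Ri / 2 - 4 * x') / L) = ε' / 40 * (Ri / 2 - 4 * x') := by
      field_simp
    rw [e3]
    apply mul_le_mul_of_nonneg_left _ (by positivity)
    linarith
  have hB : ‖f (1 / 2 + (t : ℂ) * Complex.I + ((4 * x' : ℝ) : ℂ) / ((L : ℝ) : ℂ))‖ ≤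
      Real.exp (ε' / 40) *
        ‖f (1 / 2 + (t : ℂ) * Complex.I + (4 * (x' : ℂ) + (w : ℂ) * Complex.I) / ((L : ℝ) : ℂ))‖ := by
    have h1 := grow hf
      (a := 1 / 2 + (t : ℂ) * Complex.I + (4 * (x' : ℂ) + (w : ℂ) * Complex.I) / ((L : ℝ) : ℂ))
      (b := 1 / 2 + (t : ℂ) * Complex.I + ((4 * x' : ℝ) : ℂ) / ((L : ℝ) : ℂ))
      (B := ε' / 40 * L) (by
        intro s hs0 hs1
        have e1 : (1 / 2 + (t : ℂ) * Complex.I +
              (4 * (x' : ℂ) + (w : ℂ) * Complex.I) / ((L : ℝ) : ℂ)) +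
            (s : ℂ) * ((1 / 2 + (t : ℂ) * Complex.I + ((4 * x' : ℝ) : ℂ) / ((L : ℝ) : ℂ)) -
              (1 / 2 + (t : ℂ) * Complex.I +
                (4 * (x' : ℂ) + (w : ℂ) * Complex.I) / ((L : ℝ) : ℂ))) =
            1 / 2 + (t : ℂ) * Complex.I +
              (((4 * x' : ℝ) : ℂ) + (((1 - s) * w : ℝ) : ℂ) * Complex.I) / ((L : ℝ) : ℂ) := by
          push_cast
          ring
        rw [e1]
        apply hone
        · exact le_rfl
        · linarith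
        · rw [abs_mul, abs_of_nonneg (by linarith : (0 : ℝ) ≤ 1 - s)]
          have h4 : (1 - s) * |w| ≤ 1 * 1 :=
            mul_le_mul (by linarith) hw (abs_nonneg _) zero_le_one
          linarith)
    refine h1.trans (mul_le_mul_of_nonneg_right (Real.exp_le_exp.mpr ?_) (norm_nonneg _))
    have e2 : (1 / 2 + (t : ℂ) * Complex.I + ((4 * x' : ℝ) : ℂ) / ((L : ℝ) : ℂ)) -
        (1 / 2 + (t : ℂ) * Complex.I + (4 * (x' : ℂ) + (w : ℂ) * Complex.I) / ((L : ℝ) : ℂ)) =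
        ((-(w / L) : ℝ) : ℂ) * Complex.I := by
      push_cast
      ring
    rw [e2, norm_mul, Complex.norm_I, mul_one, Complex.norm_real, Real.norm_eq_abs, abs_neg,
      abs_div, abs_of_pos hL]
    have e3 : ε' / 40 * L * (|w| / L) = ε' / 40 * |w| := by
      field_simp
    rw [e3]
    calc ε' / 40 * |w| ≤ ε' / 40 * 1 := mul_le_mul_of_nonneg_left hw (by positivity)
      _ = ε' / 40 := mul_one _
  -- (4)
  have hcast2 : ((Ri / 2 / L : ℝ) : ℂ) = ((Ri / 2 : ℝ) : ℂ) / ((L : ℝ) : ℂ) := by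
    push_cast
    ring
  rw [hcast2] at hstep2
  set X : ℝ := ‖f (1 / 2 + (t : ℂ) * Complex.I +
    (4 * (x' : ℂ) + (w : ℂ) * Complex.I) / ((L : ℝ) : ℂ))‖ with hX
  have hX0 : 0 ≤ X := norm_nonneg _
  calc ‖f (1 / 2 + (t : ℂ) * Complex.I + z / ((L : ℝ) : ℂ))‖
      ≤ Real.exp (min εL (ε' / 40) * Ri) *
          ‖f (1 / 2 + (t : ℂ) * Complex.I + ((Ri / 2 : ℝ) : ℂ) / ((L : ℝ) : ℂ))‖ := hstep2
    _ ≤ Real.exp (min εL (ε' / 40) * Ri) * (Real.exp (ε' / 40 * (Ri / 2)) *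
          (Real.exp (ε' / 40) * X)) := by
        apply mul_le_mul_of_nonneg_left _ (Real.exp_pos _).le
        refine hA.trans ?_
        exact mul_le_mul_of_nonneg_left hB (Real.exp_pos _).le
    _ = Real.exp (min εL (ε' / 40) * Ri + ε' / 40 * (Ri / 2) + ε' / 40) * X := by
        rw [Real.exp_add, Real.exp_add]
        ring
    _ ≤ Real.exp (ε' * (x' + ‖z‖)) * X := by
        apply mul_le_mul_of_nonneg_right _ hX0
        apply Real.exp_le_exp.mpr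
        have h5 : min εL (ε' / 40) * Ri ≤ ε' / 40 * Ri :=
          mul_le_mul_of_nonneg_right (min_le_right _ _) (by linarith)
        have h6 : ε' / 40 * Ri + ε' / 40 * (Ri / 2) + ε' / 40 =
            ε' * ((3 / 2 * Ri + 1) / 40) := by ring
        have h7 : (3 / 2 * Ri + 1) / 40 ≤ x' + ‖z‖ := by
          linarith
        have h8 := mul_le_mul_of_nonneg_left h7 hε'.le
        linarith

end Pool.Agent.H354.MI
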